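import Pool.Agent.H44R2.Stk.Defs

/-!
# T9: from characteristic functions to distribution functions
-/

set_option autoImplicit false

namespace Pool.Agent.H114R2.Stk

open Finset Filter Topology MeasureTheory ProbabilityTheory

theorem cdf_tendsto (μ : ℕ → Measure ℝ) [∀ n, IsProbabilityMeasure (μ n)] (v : NNReal)
    (hv : v ≠ 0)
    (h : ∀ θ : ℝ, Tendsto (fun n => charFun (μ n) θ) atTop
      (𝓝 (Complex.exp (-((v : ℝ) * θ ^ 2 / 2 : ℝ))))) (x : ℝ) :
    Tendsto (fun n => (μ n).real (Set.Iic x)) atTop (𝓝 (cdf (gaussianReal 0 v) x)) := by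
  set P : ℕ → ProbabilityMeasure ℝ := fun n => ⟨μ n, inferInstance⟩ with hP
  set G : ProbabilityMeasure ℝ := ⟨gaussianReal 0 v, inferInstance⟩ with hG
  have hlim : Tendsto P atTop (𝓝 G) := by
    rw [ProbabilityMeasure.tendsto_iff_tendsto_charFun]
    intro t
    have e1 : charFun (G : Measure ℝ) t = Complex.exp (-((v : ℝ) * t ^ 2 / 2 : ℝ)) := by
      change charFun (gaussianReal 0 v) t = _
      rw [charFun_gaussianReal]
      congr 1
      push_cast
      ring
    rw [e1]
    exact h t
  have hnull : (G : Measure ℝ) (frontier (Set.Iic x)) = 0 := by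
    rw [frontier_Iic]
    change gaussianReal 0 v {x} = 0
    haveI := noAtoms_gaussianReal (μ := 0) hv
    exact measure_singleton x
  have h1 := ProbabilityMeasure.tendsto_measure_of_null_frontier_of_tendsto' hlim hnull
  rw [cdf_eq_real]
  exact (ENNReal.tendsto_toReal (measure_ne_top (G : Measure ℝ) (Set.Iic x))).comp h1

theorem finite_cdf_tendsto {α : Type*} (P : ℕ → Finset α) (hP : ∀ n, (P n).Nonempty)
    (Y : ℕ → α → ℝ) (v : NNReal) (hv : v ≠ 0)
    (h : ∀ θ : ℝ, Tendsto (fun n => (∑ a ∈ P n, Complex.exp (θ * Y n a * Complex.I)) /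
      ((P n).card : ℂ)) atTop (𝓝 (Complex.exp (-((v : ℝ) * θ ^ 2 / 2 : ℝ))))) (x : ℝ) :
    Tendsto (fun n => (((P n).filter (fun a => Y n a ≤ x)).card : ℝ) / ((P n).card : ℝ)) atTop
      (𝓝 (cdf (gaussianReal 0 v) x)) := by
  classical
  set μ : ℕ → Measure ℝ := fun n => ((P n).card : ENNReal)⁻¹ •
    ∑ a ∈ P n, Measure.dirac (Y n a) with hμ
  have hc0 : ∀ n, ((P n).card : ENNReal) ≠ 0 := fun n => by
    exact_mod_cast (Finset.card_pos.mpr (hP n)).ne'
  have hcT : ∀ n, ((P n).card : ENNReal) ≠ ⊤ := fun n => ENNReal.natCast_ne_top _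
  haveI hprob : ∀ n, IsProbabilityMeasure (μ n) := by
    intro n
    constructor
    rw [hμ, Measure.smul_apply, Measure.finsetSum_apply]
    simp only [measure_univ, Finset.sum_const, smul_eq_mul, nsmul_eq_mul, mul_one]
    exact ENNReal.inv_mul_cancel (hc0 n) (hcT n)
  have hchar : ∀ n (θ : ℝ), charFun (μ n) θ =
      (∑ a ∈ P n, Complex.exp (θ * Y n a * Complex.I)) / ((P n).card : ℂ) := by
    intro n θ
    rw [charFun_apply_real, hμ, integral_smul_measure, integral_finsetSum_measure]
    · simp only [integral_dirac]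
      rw [ENNReal.toReal_inv, ENNReal.toReal_natCast, div_eq_inv_mul, Complex.real_smul]
      push_cast
      rfl
    · intro a _
      exact integrable_dirac (by simp)
  have hreal : ∀ n, (μ n).real (Set.Iic x) =
      (((P n).filter (fun a => Y n a ≤ x)).card : ℝ) / ((P n).card : ℝ) := by
    intro n
    rw [measureReal_def, hμ, Measure.smul_apply, Measure.finsetSum_apply, smul_eq_mul,
      ENNReal.toReal_mul, ENNReal.toReal_inv, ENNReal.toReal_natCast, div_eq_inv_mul]
    congr 1
    have : ∑ a ∈ P n, (Measure.dirac (Y n a)) (Set.Iic x) =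
        (((P n).filter (fun a => Y n a ≤ x)).card : ENNReal) := by
      rw [Finset.card_filter]
      push_cast
      apply Finset.sum_congr rfl
      intro a _
      rw [Measure.dirac_apply' _ measurableSet_Iic]
      by_cases hx : Y n a ≤ x
      · rw [Set.indicator_of_mem (Set.mem_Iic.mpr hx), if_pos hx]; rfl
      · rw [Set.indicator_of_notMem (fun h' => hx (Set.mem_Iic.mp h')), if_neg hx]
    rw [this, ENNReal.toReal_natCast]
  have hmain := cdf_tendsto μ v hv (fun θ => by simp only [hchar]; exact h θ) x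
  simp only [hreal] at hmain
  exact hmain

theorem variance_pos : 0 < 2 + 2 * Real.exp 1 - Real.exp 1 ^ 2 := by
  have h1 := Real.exp_one_lt_d9
  have h2 := Real.exp_one_gt_d9
  nlinarith

end Pool.Agent.H114R2.Stk
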